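import Pool.Agent.Lib.MP_95f3db_an.Grad

/-!
# No open dense set of trivial centralizers among Axiom A no-cycle C1 diffeomorphisms
-/

namespace Pool.Agent.Results.MP_95f3db_an.NoOpenDense

open scoped Manifold ContDiff Topology
open Pool.Agent.Lib.MP_95f3db_an

theorem result {E : Type*} [NormedAddCommGroup E] [NormedSpace ℝ E] [FiniteDimensional ℝ E]
    {M : Type*} [TopologicalSpace M] [ChartedSpace E M] [IsManifold 𝓘(ℝ, E) ∞ M]
    [CompactSpace M] [T2Space M] [ConnectedSpace M] (hd : 3 ≤ Module.finrank ℝ E) :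
    ¬ ∃ U : Set (Diff1 E M), U ⊆ axiomANoCycles E M ∧
      (∃ W : Set (Diff1 E M), @IsOpen _ (c1Top E M) W ∧ U = W ∩ axiomANoCycles E M) ∧
      axiomANoCycles E M ⊆ @closure _ (c1Top E M) U ∧ ∀ f ∈ U, TrivialCentralizer f := by
  have : Nontrivial E := Module.nontrivial_of_finrank_pos (R := ℝ) (by omega)
  obtain ⟨f, hf⟩ := exists_seed (E := E) (M := M)
  exact hf.negative (by omega)

end Pool.Agent.Results.MP_95f3db_an.NoOpenDense
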