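import Pool.Agent.Lib.MP_95f3db_an.NS.Main
import Pool.Agent.Lib.MP_95f3db_an.NS.Ex

/-!
# Large centralizers are dense among north-south diffeomorphisms of even spheres
-/

namespace Pool.Agent.Results.MP_95f3db_an.NorthSouth

open scoped Manifold ContDiff Topology
open Pool.Agent.Lib.MP_95f3db_an Pool.Agent.Lib.MP_95f3db_an.NS

theorem result (d : ℕ) (hd : Even d) (hd0 : 0 < d) (τ : TopologicalSpace (SD d))
    (hτ : τ = c1Top _ _) (V : Set (SD d)) (hV : V = northSouth _ _) :
    V.Nonempty ∧ @IsOpen (SD d) τ V ∧ V ⊆ axiomANoCycles _ _ ∧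
      V ⊆ @closure (SD d) τ {f : SD d | f ∈ V ∧ FlowInCentralizer f} := by
  subst hV hτ
  have : Nonempty (Fin d) := ⟨⟨0, hd0⟩⟩
  have := Fact.mk (@finrank_euclideanSpace_fin ℝ _ (d + 1))
  refine ⟨northSouth_nonempty, isOpen_northSouth, northSouth_subset, fun f hf => ?_⟩
  refine mem_closure_iff_nhds.mpr fun W hW => ?_
  exact dense_flow (noField_sphere (V := EuclideanSpace ℝ (Fin (d + 1))) hd) hf hW

end Pool.Agent.Results.MP_95f3db_an.NorthSouth
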